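import Pool.Agent.MP_d4b492_an.Init

/-! The exact form of the bi-Lipschitz maps of the carpet into the periodic carpet. -/

set_option autoImplicit false

open Set Filter Topology

namespace Pool.Agent.MP_d4b492_an.St

/-- `f` is given on the carpet by the matrix `a b c d` and the vector `e e'`. -/
def Af (f : Pt → Pt) (a b c d e e' : ℝ) : Prop :=
  ∀ p ∈ S, f p = (a * p.1 + b * p.2 + e, c * p.1 + d * p.2 + e')

/-- A power of three times a signed permutation matrix. -/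
def SP (m : ℤ) (a b c d : ℝ) : Prop :=
  (|a| = 3 ^ m ∧ |d| = 3 ^ m ∧ b = 0 ∧ c = 0) ∨ (|b| = 3 ^ m ∧ |c| = 3 ^ m ∧ a = 0 ∧ d = 0)

/-- Bi-Lipschitz up to an additive error. -/
def Ro (K η : ℝ) (g : Pt → Pt) : Prop := ∀ p ∈ S, ∀ q ∈ S,
  dist p q ≤ K * dist (g p) (g q) + η ∧ dist (g p) (g q) ≤ K * dist p q + η

variable {K L a b c d e e' : ℝ} {f g : Pt → Pt} {m : ℤ}

theorem Af.tngx (H : Af f a b c d e e') : Af (fun p => ngx (f p)) (-a) (-b) c d (-e) e' :=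
  fun p hp => by simp only [H p hp, ngx]; exact Prod.ext (by ring) rfl

theorem Af.tngy (H : Af f a b c d e e') : Af (fun p => ngy (f p)) a b (-c) (-d) e (-e') :=
  fun p hp => by simp only [H p hp, ngy]; exact Prod.ext rfl (by ring)

theorem Af.tswap (H : Af f a b c d e e') : Af (fun p => Prod.swap (f p)) c d a b e' e :=
  fun p hp => by simp only [H p hp, Prod.swap]

theorem Af.dswap (H : Af f a b c d e e') : Af (fun p => f (Prod.swap p)) b a d c e e' :=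
  fun p hp => by
    simp only [H _ (S_swap hp), Prod.swap]
    exact Prod.ext (by ring) (by ring)

theorem of_not_nc (hg : Good K L S f) (hn : ¬ NC L S f) (H : Af f a b c d e e') :
    ∃ m : ℤ, a = 3 ^ m ∧ d = 3 ^ m ∧ b = 0 ∧ c = 0 := by
  unfold NC at hn
  push Not at hn
  obtain ⟨n, k, hL, i, j, v, hW, hc⟩ := hn
  obtain ⟨e1, e2, e3, -⟩ :=
    exact_of_close (hg.normalize (hg.K_nonneg subset_rfl) hL i j v hW) subset_rfl hc
  have m1 := H _ (hW (2 / 3, 1 / 3) (line_mem_W third_mem_C (by norm_num) (by norm_num)))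
  have m2 := H _ (hW (1, 1 / 3) (line_mem_W third_mem_C (by norm_num) (by norm_num)))
  have m3 := H _ (hW (2 / 3, 2 / 3) (line_mem_W two_thirds_mem_C (by norm_num) (by norm_num)))
  simp only [zm, m1, m2, m3, Prod.mk.injEq] at e1 e2 e3
  simp only [psi] at e1 e2 e3
  have h3 : (3 : ℝ) ^ n ≠ 0 := by positivity
  have h4 : (3 : ℝ) ^ k ≠ 0 := by positivity
  have h5 : (3 : ℝ) ^ k / 3 ^ n ≠ 0 := by positivity
  have hz : (3 : ℝ) ^ k / 3 ^ n * 3 ^ ((n : ℤ) - k) = 1 := by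
    rw [zpow_sub₀ (by norm_num), zpow_natCast, zpow_natCast]
    field_simp
  refine ⟨n - k, mul_left_cancel₀ h5 ?_, mul_left_cancel₀ h5 ?_, mul_left_cancel₀ h5 ?_,
    mul_left_cancel₀ h5 ?_⟩
  · rw [hz]; linear_combination 3 * e2.1 - 3 * e1.1
  · rw [hz]; linear_combination 3 * e3.2 - 3 * e1.2
  · linear_combination 3 * e3.1 - 3 * e1.1
  · linear_combination 3 * e2.2 - 3 * e1.2

theorem pos3 (m : ℤ) : (0 : ℝ) < 3 ^ m := zpow_pos (by norm_num) m

theorem abs3 (m : ℤ) : |(3 : ℝ) ^ m| = 3 ^ m := abs_of_pos (pos3 m)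

theorem core1 (hg : Good K (a + c) S f) (H : Af f a b c d e e') (hL : 0 < a + c) :
    ∃ m, SP m a b c d := by
  have := not_nc4 hg hL fun δ hδ => ⟨0, 0, 0, Cell.root, 0, zero_mem_C, 0, 1, le_rfl, zero_lt_one,
    le_rfl, by rw [zm_zero, H _ c10, H _ c00]; simp [ph]; linarith⟩
  unfold NC4 at this
  by_cases h1 : NC (a + c) S f
  · by_cases h2 : NC (a + c) S (fun p => ngy (f p))
    · by_cases h3 : NC (a + c) S (fun p => Prod.swap (f p))
      · obtain ⟨m, u1, u2, u3, u4⟩ :=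
          of_not_nc hg.tswap.tngy (fun h4 => this ⟨⟨h1, h2⟩, h3, h4⟩) H.tswap.tngy
        exact ⟨m, Or.inr ⟨by rw [← abs_neg, u2, abs3], by rw [u1, abs3], neg_eq_zero.1 u4, u3⟩⟩
      · obtain ⟨m, u1, u2, u3, u4⟩ := of_not_nc hg.tswap h3 H.tswap
        exact ⟨m, Or.inr ⟨by rw [u2, abs3], by rw [u1, abs3], u4, u3⟩⟩
    · obtain ⟨m, u1, u2, u3, u4⟩ := of_not_nc hg.tngy h2 H.tngy
      exact ⟨m, Or.inl ⟨by rw [u1, abs3], by rw [← abs_neg, u2, abs3], u3, neg_eq_zero.1 u4⟩⟩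
  · obtain ⟨m, u1, u2, u3, u4⟩ := of_not_nc hg h1 H
    exact ⟨m, Or.inl ⟨by rw [u1, abs3], by rw [u2, abs3], u3, u4⟩⟩

theorem core2 (hg : Good K (|a| + |c|) S f) (H : Af f a b c d e e') (hL : 0 < |a| + |c|) :
    ∃ m, SP m a b c d := by
  rcases abs_choice a with h1 | h1 <;> rcases abs_choice c with h2 | h2 <;> rw [h1, h2] at hg hL
  · exact core1 hg H hL
  · simpa [SP] using core1 hg.tngy H.tngy hL
  · simpa [SP] using core1 hg.tngx H.tngx hL
  · simpa [SP] using core1 hg.tngy.tngx H.tngy.tngx hL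

theorem cls (hP : ∀ p ∈ S, f p ∈ P) (hR : Ro K 0 f) :
    ∃ (a b c d e e' : ℝ) (m : ℤ), Af f a b c d e e' ∧ SP m a b c d ∧ 1 ≤ K * 3 ^ m := by
  have lo := fun p hp q hq => (add_zero _).subst (motive := fun t => dist p q ≤ t) (hR p hp q hq).1
  have hi := fun p hp q hq =>
    (add_zero _).subst (motive := fun t => dist (f p) (f q) ≤ t) (hR p hp q hq).2
  obtain ⟨a, b, c, d, e, e', H⟩ := aff_of_bilip hP lo hi
  have h1 : 1 ≤ K * max |a| |c| := by
    simpa [H _ c10, H _ c00, Prod.dist_eq] using lo _ c10 _ c00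
  have h0 : 0 < |a| + |c| := by
    by_contra h
    have h2 : |a| = 0 := by linarith [abs_nonneg a, abs_nonneg c]
    have h3 : |c| = 0 := by linarith [abs_nonneg a, abs_nonneg c]
    norm_num [h2, h3] at h1
  have hg : Good K (max (|a| + |c|) (|b| + |d|)) S f := by
    refine ⟨hP, lo, hi, fun y x x' hx hs => ?_, fun x y y' hy hs => ?_⟩
    · rw [H _ (hs x le_rfl hx), H _ (hs x' hx le_rfl)]
      simp only [n1, Prod.mk_sub_mk]
      rw [show a * x' + b * y + e - (a * x + b * y + e) = a * (x' - x) by ring,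
        show c * x' + d * y + e' - (c * x + d * y + e') = c * (x' - x) by ring, abs_mul, abs_mul,
        abs_of_nonneg (sub_nonneg.2 hx), ← add_mul]
      exact mul_le_mul_of_nonneg_right (le_max_left _ _) (sub_nonneg.2 hx)
    · rw [H _ (hs y le_rfl hy), H _ (hs y' hy le_rfl)]
      simp only [n1, Prod.mk_sub_mk]
      rw [show a * x + b * y' + e - (a * x + b * y + e) = b * (y' - y) by ring,
        show c * x + d * y' + e' - (c * x + d * y + e') = d * (y' - y) by ring, abs_mul, abs_mul,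
        abs_of_nonneg (sub_nonneg.2 hy), ← add_mul]
      exact mul_le_mul_of_nonneg_right (le_max_right _ _) (sub_nonneg.2 hy)
  obtain ⟨m, hm⟩ : ∃ m, SP m a b c d := by
    rcases le_total (|b| + |d|) (|a| + |c|) with h | h
    · rw [max_eq_left h] at hg
      exact core2 hg H h0
    · rw [max_eq_right h] at hg
      obtain ⟨m, hm⟩ := core2 (hg.dswap fun p hp => S_swap hp) (Af.dswap H) (h0.trans_le h)
      exact ⟨m, hm.symm⟩
  refine ⟨a, b, c, d, e, e', m, H, hm, ?_⟩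
  have h3 := (pos3 m).le
  rcases hm with ⟨u, -, -, v⟩ | ⟨-, u, v, -⟩
  · rwa [u, v, abs_zero, max_eq_left h3] at h1
  · rwa [u, v, abs_zero, max_eq_right h3] at h1

theorem shift1 {s t : ℝ} (h : ∀ p ∈ S, (p.1 + s, p.2 + t) ∈ P) : ∃ z : ℤ, t = z := by
  have key : ∀ c ∈ C, ∀ i : ℤ, ¬((i : ℝ) + 1 / 3 < c + Int.fract t ∧ c + Int.fract t < i + 2 / 3) :=
    fun c hc i hi => h (Int.fract (1 / 2 - s), c)
      (line_mem_W hc (Int.fract_nonneg _) (Int.fract_lt_one _).le) 0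
      ⟨⟨-⌊1 / 2 - s⌋, by simp only [Int.fract]; push_cast; constructor <;> linarith⟩,
        ⟨i + ⌊t⌋, by simp only [Int.fract] at hi; push_cast; constructor <;> linarith⟩⟩
  have k1 := key _ zero_mem_C 0
  have k2 := key _ third_mem_C 0
  have k3 := key _ two_thirds_mem_C 1
  have k4 := key _ (C_low third_mem_C) 0
  have k5 := key _ (C_high third_mem_C) 1
  have h0 := Int.fract_nonneg t
  have h1 := Int.fract_lt_one t
  refine ⟨⌊t⌋, ?_⟩
  have h2 : Int.fract t = 0 := by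
    push_cast at k1 k2 k3 k4 k5
    simp only [not_and_or, not_lt] at k1 k2 k3 k4 k5
    rcases k1 with k1 | k1 <;> rcases k2 with k2 | k2 <;> rcases k3 with k3 | k3 <;>
      rcases k4 with k4 | k4 <;> rcases k5 with k5 | k5 <;> linarith
  rw [Int.fract] at h2
  linarith

theorem shift2 {σ τ s t : ℝ} (hσ : |σ| = 1) (hτ : |τ| = 1)
    (h : ∀ p ∈ S, (σ * p.1 + s, τ * p.2 + t) ∈ P) : ∃ z : ℤ, t = z := by
  obtain ⟨z, hz⟩ := shift1 (s := σ * s) (t := τ * t) fun p hp => by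
    have := h p hp
    rcases (abs_eq zero_le_one).1 hσ with rfl | rfl <;>
      rcases (abs_eq zero_le_one).1 hτ with rfl | rfl
    · simpa using this
    · exact (congrArg (· ∈ P) (Prod.ext (by ring) (by ring))).mp (P_negy.2 this)
    · exact (congrArg (· ∈ P) (Prod.ext (by ring) (by ring))).mp (P_negx.2 this)
    · exact (congrArg (· ∈ P) (Prod.ext (by ring) (by ring))).mp (P_negx.2 (P_negy.2 this))
  rcases (abs_eq zero_le_one).1 hτ with rfl | rfl
  · exact ⟨z, by linarith⟩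
  · exact ⟨-z, by push_cast; linarith⟩

theorem cell0 (k : ℕ) : Cell k 0 0 := by
  induction k with
  | zero => exact Cell.root
  | succ k ih => simpa using Cell.step (d := 0) (e := 0) ih (by simp [Dig])

theorem shift3 {u v s t : ℝ} {k : ℕ} (hu : |u| = 3 ^ k) (hv : |v| = 3 ^ k)
    (h : ∀ p ∈ S, (u * p.1 + s, v * p.2 + t) ∈ P) : (∃ z : ℤ, s = z) ∧ ∃ z : ℤ, t = z := by
  have h3 : (0 : ℝ) < 3 ^ k := by positivity
  have h1 : ∀ w : ℝ, |w| = 3 ^ k → |w / 3 ^ k| = 1 := fun w hw => by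
    rw [abs_div, hw, abs_of_pos h3, div_self h3.ne']
  have h2 : ∀ p ∈ S, (u / 3 ^ k * p.1 + s, v / 3 ^ k * p.2 + t) ∈ P := fun p hp =>
    (congrArg (· ∈ P) (Prod.ext (by simp only [psi]; push_cast; ring)
      (by simp only [psi]; push_cast; ring))).mp (h _ ((cell0 k).psi_mem hp))
  exact ⟨shift2 (h1 v hv) (h1 u hu) fun p hp => P_swap.2 (h2 _ (S_swap hp)),
    shift2 (h1 u hu) (h1 v hv) h2⟩

theorem int_abs {u : ℝ} {k : ℕ} (hu : |u| = 3 ^ k) : ∃ z : ℤ, u = z := by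
  rcases (abs_eq (by positivity)).1 hu with h | h
  · exact ⟨3 ^ k, by rw [h]; push_cast; rfl⟩
  · exact ⟨-3 ^ k, by rw [h]; push_cast; rfl⟩

/-- The coefficients lie in a lattice that depends on the constant only. -/
theorem lat {A : ℕ} (hA : K ≤ 3 ^ A) (hP : ∀ p ∈ S, f p ∈ P) (hR : Ro K 0 f) :
    ∃ a b c d e e' : ℤ, Af (fun p => (3 ^ A * (f p).1, 3 ^ A * (f p).2)) a b c d e e' := by
  obtain ⟨a, b, c, d, e, e', m, H, hm, h1⟩ := cls hP hR
  have h2 : (1 : ℝ) ≤ 3 ^ ((A : ℤ) + m) := by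
    rw [zpow_add₀ (by norm_num), zpow_natCast]
    exact h1.trans (mul_le_mul_of_nonneg_right hA (pos3 m).le)
  obtain ⟨k, hk⟩ := Int.eq_ofNat_of_zero_le ((one_le_zpow_iff_right₀ (by norm_num)).1 h2)
  have h3 : ∀ w : ℝ, |w| = 3 ^ m → |3 ^ A * w| = 3 ^ k := fun w hw => by
    rw [abs_mul, hw, abs_of_pos (by positivity), ← zpow_natCast, ← zpow_add₀ (by norm_num), hk,
      zpow_natCast]
  have H' : Af (fun p => (3 ^ A * (f p).1, 3 ^ A * (f p).2)) (3 ^ A * a) (3 ^ A * b) (3 ^ A * c)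
      (3 ^ A * d) (3 ^ A * e) (3 ^ A * e') := fun p hp => by
    simp only [H p hp]
    exact Prod.ext (by ring) (by ring)
  have hP' : ∀ p ∈ S, (3 ^ A * a * p.1 + 3 ^ A * b * p.2 + 3 ^ A * e,
      3 ^ A * c * p.1 + 3 ^ A * d * p.2 + 3 ^ A * e') ∈ P := fun p hp =>
    H' p hp ▸ P_mul_pow (x := (f p).1) (y := (f p).2) (hP p hp) A
  rcases hm with ⟨u, v, rfl, rfl⟩ | ⟨u, v, rfl, rfl⟩
  · obtain ⟨⟨z, hz⟩, z', hz'⟩ := shift3 (h3 _ u) (h3 _ v) (s := 3 ^ A * e) (t := 3 ^ A * e')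
      fun p hp => by simpa using hP' p hp
    obtain ⟨x, hx⟩ := int_abs (h3 _ u)
    obtain ⟨y, hy⟩ := int_abs (h3 _ v)
    exact ⟨x, 0, 0, y, z, z', by simpa [hx, hy, hz, hz'] using H'⟩
  · obtain ⟨⟨z, hz⟩, z', hz'⟩ := shift3 (h3 _ u) (h3 _ v) (s := 3 ^ A * e) (t := 3 ^ A * e')
      fun p hp => by simpa using hP' _ (S_swap hp)
    obtain ⟨x, hx⟩ := int_abs (h3 _ u)
    obtain ⟨y, hy⟩ := int_abs (h3 _ v)
    exact ⟨0, x, y, 0, z, z', by simpa [hx, hy, hz, hz'] using H'⟩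

/-- Embeddings with a given constant are isolated. -/
theorem disc {A : ℕ} (hA : K ≤ 3 ^ A) (hP : ∀ p ∈ S, f p ∈ P) (hR : Ro K 0 f)
    (hP' : ∀ p ∈ S, g p ∈ P) (hR' : Ro K 0 g) (h : ∀ p ∈ S, 3 ^ A * dist (f p) (g p) < 1) :
    ∀ p ∈ S, f p = g p := by
  obtain ⟨a, b, c, d, e, e', H⟩ := lat hA hP hR
  obtain ⟨a₁, b₁, c₁, d₁, e₁, e₁', H₁⟩ := lat hA hP' hR'
  have h3 : (0 : ℝ) < 3 ^ A := by positivity
  have key : ∀ p ∈ S, ∀ x y x₁ y₁ : ℤ, (3 ^ A * (f p).1, 3 ^ A * (f p).2) = ((x : ℝ), (y : ℝ)) →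
      (3 ^ A * (g p).1, 3 ^ A * (g p).2) = ((x₁ : ℝ), (y₁ : ℝ)) → x = x₁ ∧ y = y₁ := by
    intro p hp x y x₁ y₁ u v
    have := h p hp
    rw [Prod.dist_eq, mul_max_of_nonneg _ _ h3.le, max_lt_iff, Real.dist_eq, Real.dist_eq,
      ← abs_of_pos h3, ← abs_mul, ← abs_mul, mul_sub, mul_sub] at this
    simp only [Prod.mk.injEq] at u v
    rw [u.1, u.2, v.1, v.2, ← Int.cast_sub, ← Int.cast_sub, ← Int.cast_abs, ← Int.cast_abs,
      ← Int.cast_one, Int.cast_lt, Int.cast_lt, Int.abs_lt_one_iff, Int.abs_lt_one_iff] at this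
    omega
  have k0 := key _ c00 e e' e₁ e₁' (by simpa using H _ c00) (by simpa using H₁ _ c00)
  have k1 := key _ c10 (a + e) (c + e') (a₁ + e₁) (c₁ + e₁') (by simpa using H _ c10)
    (by simpa using H₁ _ c10)
  have k2 := key _ c01 (b + e) (d + e') (b₁ + e₁) (d₁ + e₁') (by simpa using H _ c01)
    (by simpa using H₁ _ c01)
  obtain ⟨rfl, rfl, rfl, rfl, rfl, rfl⟩ :
    a = a₁ ∧ b = b₁ ∧ c = c₁ ∧ d = d₁ ∧ e = e₁ ∧ e' = e₁' := by omega
  intro p hp
  have := (H p hp).trans (H₁ p hp).symm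
  simp only [Prod.mk.injEq] at this
  exact Prod.ext (mul_left_cancel₀ h3.ne' this.1) (mul_left_cancel₀ h3.ne' this.2)

end Pool.Agent.MP_d4b492_an.St
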