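import Mathlib.Analysis.InnerProductSpace.PiL2

/-! The standard Sierpinski carpet in the Euclidean plane and its cell maps. -/

set_option autoImplicit false

namespace Pool.Agent.MP_d4b492_an.St

/-- The addresses `(i, j)` of the closed squares of side `3 ^ (-k)` with lower left corner
`(i / 3 ^ k, j / 3 ^ k)` that are kept at stage `k`: each kept square is split into nine and all
but the middle one are kept. -/
def addr : ℕ → Set (ℤ × ℤ)
  | 0 => {(0, 0)}
  | k + 1 => {c | ∃ a ∈ addr k, ∃ d e : ℤ, 0 ≤ d ∧ d ≤ 2 ∧ 0 ≤ e ∧ e ≤ 2 ∧ ¬(d = 1 ∧ e = 1) ∧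
      c = (3 * a.1 + d, 3 * a.2 + e)}

/-- The union of the squares kept at stage `k`. -/
def stage (k : ℕ) : Set (EuclideanSpace ℝ (Fin 2)) :=
  {x | ∃ c ∈ addr k, (c.1 : ℝ) / 3 ^ k ≤ x 0 ∧ x 0 ≤ (c.1 + 1) / 3 ^ k ∧
    (c.2 : ℝ) / 3 ^ k ≤ x 1 ∧ x 1 ≤ (c.2 + 1) / 3 ^ k}

/-- The carpet. -/
def carpet : Set (EuclideanSpace ℝ (Fin 2)) := ⋂ k, stage k

/-- `u` or `1 - u`. -/
def mir (s : Bool) (u : ℝ) : ℝ := if s then 1 - u else u

/-- One of the eight symmetries of the unit square (`w`: exchange the coordinates; `s`, `t`: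
reflect the first, the second coordinate) followed by the homothety of ratio `3 ^ (-k)` that carries
the unit square onto the square with address `c`. -/
noncomputable def cellMap (k : ℕ) (c : ℤ × ℤ) (w s t : Bool) (x : EuclideanSpace ℝ (Fin 2)) :
    EuclideanSpace ℝ (Fin 2) :=
  !₂[(mir s (if w then x 1 else x 0) + c.1) / 3 ^ k, (mir t (if w then x 0 else x 1) + c.2) / 3 ^ k]

end Pool.Agent.MP_d4b492_an.St
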