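import Pool.Agent.MP_d4b492_an.st.Stab
import Pool.Agent.MP_d4b492_an.st.Defs

/-! The exact embeddings are the cell maps; the statement in the Euclidean plane. -/

set_option autoImplicit false

open Set Filter Topology

namespace Pool.Agent.MP_d4b492_an.St

theorem one_dim {u : ℝ} (hu : |u| = 1) (z : ℤ) :
    ∃ (σ : Bool) (i : ℤ), ∀ x : ℝ, u * x + z = mir σ x + i := by
  rcases (abs_eq zero_le_one).1 hu with rfl | rfl
  · exact ⟨false, z, fun x => by simp [mir]⟩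
  · exact ⟨true, z - 1, fun x => by simp only [mir, if_true]; push_cast; ring⟩

theorem form1 {u v s t : ℝ} {m : ℤ} (hu : |u| = 3 ^ m) (hv : |v| = 3 ^ m)
    (h : ∀ p ∈ S, (u * p.1 + s, v * p.2 + t) ∈ S) : ∃ (k : ℕ) (i j : ℤ) (σ τ : Bool),
      Cell k i j ∧ ∀ x y : ℝ, (u * x + s, v * y + t) = psi k i j (mir σ x, mir τ y) := by
  have h1 : (3 : ℝ) ^ m ≤ 1 := by
    have := dist_S (h _ c10) (h _ c00)
    simpa [Prod.dist_eq, hu] using this
  obtain ⟨k, hk⟩ := Int.exists_eq_neg_ofNat ((zpow_le_one_iff_right₀ (by norm_num)).1 h1)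
  have h3 : (0 : ℝ) < 3 ^ k := by positivity
  have h2 : ∀ w : ℝ, |w| = 3 ^ m → |3 ^ k * w| = 1 := fun w hw => by
    rw [abs_mul, hw, abs_of_pos h3, hk, zpow_neg, zpow_natCast, mul_inv_cancel₀ h3.ne']
  obtain ⟨⟨z, hz⟩, z', hz'⟩ := shift3 (k := 0) (u := 3 ^ k * u) (v := 3 ^ k * v) (s := 3 ^ k * s)
    (t := 3 ^ k * t) (by simpa using h2 u hu) (by simpa using h2 v hv) fun p hp =>
      (congrArg (· ∈ P) (Prod.ext (by ring) (by ring))).mp (P_mul_pow (h p hp).1 k)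
  obtain ⟨σ, i, hi⟩ := one_dim (h2 u hu) z
  obtain ⟨τ, j, hj⟩ := one_dim (h2 v hv) z'
  have key : ∀ x y : ℝ, (u * x + s, v * y + t) = psi k i j (mir σ x, mir τ y) := fun x y => by
    simp only [psi, ← hi, ← hj, ← hz, ← hz']
    refine Prod.ext ?_ ?_ <;> field_simp
  refine ⟨k, i, j, σ, τ, cell_of_mem ?_, key⟩
  have hm : (mir σ (1 / 3), mir τ (1 / 3)) ∈ S := by
    refine line_mem_W ?_ ?_ ?_
    · cases τ
      · exact third_mem_C
      · simp only [mir, if_true]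
        rw [show (1 : ℝ) - 1 / 3 = 2 / 3 by norm_num]
        exact two_thirds_mem_C
    · cases σ <;> norm_num [mir]
    · cases σ <;> norm_num [mir]
  have := h _ hm
  rw [key] at this
  have e : ∀ (b : Bool) (x : ℝ), mir b (mir b x) = x := fun b x => by cases b <;> simp [mir]
  rwa [e, e] at this

theorem form {K : ℝ} {φ : Pt → Pt} (hS : ∀ p ∈ S, φ p ∈ S) (hR : Ro K 0 φ) :
    ∃ (k : ℕ) (i j : ℤ) (w σ τ : Bool), Cell k i j ∧ ∀ p ∈ S,
      φ p = psi k i j (mir σ (if w then p.2 else p.1), mir τ (if w then p.1 else p.2)) := by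
  obtain ⟨a, b, c, d, e, e', m, H, hm, -⟩ := cls (fun p hp => (hS p hp).1) hR
  rcases hm with ⟨u, v, rfl, rfl⟩ | ⟨u, v, rfl, rfl⟩
  · obtain ⟨k, i, j, σ, τ, hc, h⟩ := form1 u v (s := e) (t := e') fun p hp => by
      simpa [H p hp] using hS p hp
    exact ⟨k, i, j, false, σ, τ, hc, fun p hp => by simpa [H p hp] using h p.1 p.2⟩
  · obtain ⟨k, i, j, σ, τ, hc, h⟩ := form1 u v (s := e) (t := e') fun p hp => by
      simpa [H _ (S_swap hp)] using hS _ (S_swap hp)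
    exact ⟨k, i, j, true, σ, τ, hc, fun p hp => by simpa [H p hp] using h p.2 p.1⟩

theorem addr_iff {k : ℕ} {c : ℤ × ℤ} : c ∈ addr k ↔ Cell k c.1 c.2 := by
  constructor
  · induction k generalizing c with
    | zero => rintro rfl; exact Cell.root
    | succ k ih =>
      rintro ⟨a, ha, d, e, h1, h2, h3, h4, h5, rfl⟩
      exact (ih ha).step ⟨h1, h2, h3, h4, h5⟩
  · obtain ⟨i, j⟩ := c
    intro h
    simp only at h
    induction h with
    | root => rfl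
    | step _ hd ih => exact ⟨_, ih, _, _, hd.1, hd.2.1, hd.2.2.1, hd.2.2.2.1, hd.2.2.2.2, rfl⟩

theorem mem_carpet {x : EuclideanSpace ℝ (Fin 2)} : x ∈ carpet ↔ (x 0, x 1) ∈ S := by
  rw [carpet, mem_iInter]
  refine ⟨fun h => isClosed_S.closure_subset (Metric.mem_closure_iff.2 fun ε hε => ?_),
    fun h k => ?_⟩
  · obtain ⟨k, hk⟩ := pow_unbounded_of_one_lt (1 / ε) (by norm_num : (1 : ℝ) < 3)
    obtain ⟨c, hc, h1, h2, h3, h4⟩ := h k
    refine ⟨_, (addr_iff.1 hc).psi_mem c00, ?_⟩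
    have h5 : (1 : ℝ) / 3 ^ k < ε := by
      rwa [div_lt_iff₀ (by positivity), mul_comm, ← div_lt_iff₀ hε]
    rw [add_div] at h2 h4
    simp only [psi, zero_add, Prod.dist_eq, max_lt_iff, Real.dist_eq, abs_lt]
    refine ⟨⟨?_, ?_⟩, ?_, ?_⟩ <;> linarith
  · obtain ⟨i, j, hc, -, h1, h2, h3, h4⟩ := exists_cell k h
    have h5 : (0 : ℝ) < 3 ^ k := by positivity
    refine ⟨(i, j), addr_iff.2 hc, ?_⟩
    simp only [div_le_iff₀ h5, le_div_iff₀ h5] at h1 h2 h3 h4 ⊢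
    refine ⟨?_, ?_, ?_, ?_⟩ <;> linarith

theorem dist_cmp (x y : EuclideanSpace ℝ (Fin 2)) :
    dist (x 0, x 1) (y 0, y 1) ≤ dist x y ∧ dist x y ≤ 2 * dist (x 0, x 1) (y 0, y 1) := by
  refine ⟨?_, ?_⟩
  · rw [Prod.dist_eq]
    exact max_le (PiLp.dist_apply_le x y 0) (PiLp.dist_apply_le x y 1)
  · rw [EuclideanSpace.dist_eq, Fin.sum_univ_two, Real.sqrt_le_left (by positivity), Prod.dist_eq]
    have h1 := le_max_left (dist (x 0) (y 0)) (dist (x 1) (y 1))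
    have h2 := le_max_right (dist (x 0) (y 0)) (dist (x 1) (y 1))
    have h3 := pow_le_pow_left₀ dist_nonneg h1 2
    have h4 := pow_le_pow_left₀ dist_nonneg h2 2
    simp only
    nlinarith [sq_nonneg (max (dist (x 0) (y 0)) (dist (x 1) (y 1)))]

theorem main (K : ℝ) : ∃ B : ℝ, ∀ (η : ℝ)
    (f : EuclideanSpace ℝ (Fin 2) → EuclideanSpace ℝ (Fin 2)), 0 ≤ η →
    (∀ x ∈ carpet, ∃ y ∈ carpet, dist (f x) y ≤ η) →
    (∀ x ∈ carpet, ∀ y ∈ carpet,
      dist x y ≤ K * dist (f x) (f y) + η ∧ dist (f x) (f y) ≤ K * dist x y + η) →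
    ∃ k : ℕ, ∃ c ∈ addr k, ∃ w s t : Bool,
      ∀ x ∈ carpet, dist (f x) (cellMap k c w s t x) ≤ B * η := by
  obtain ⟨B, hB, H⟩ := stab (K := 2 * |K|) (by positivity)
  refine ⟨2 * B, fun η f hη fn fr => ?_⟩
  have hm : ∀ p ∈ S, (!₂[p.1, p.2] : EuclideanSpace ℝ (Fin 2)) ∈ carpet := fun p hp =>
    mem_carpet.2 (by simpa using hp)
  obtain ⟨φ, K', h1, h2, h3⟩ := H η (fun p => (f !₂[p.1, p.2] 0, f !₂[p.1, p.2] 1)) hη
    (fun p hp => by
      obtain ⟨y, a, b⟩ := fn _ (hm p hp)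
      exact ⟨_, mem_carpet.1 a, (dist_cmp _ _).1.trans b⟩)
    (fun p hp q hq => by
      obtain ⟨a, b⟩ := fr _ (hm p hp) _ (hm q hq)
      obtain ⟨c1, c2⟩ := dist_cmp !₂[p.1, p.2] !₂[q.1, q.2]
      obtain ⟨d1, d2⟩ := dist_cmp (f !₂[p.1, p.2]) (f !₂[q.1, q.2])
      have e : dist ((!₂[p.1, p.2] : EuclideanSpace ℝ (Fin 2)) 0,
          (!₂[p.1, p.2] : EuclideanSpace ℝ (Fin 2)) 1)
          ((!₂[q.1, q.2] : EuclideanSpace ℝ (Fin 2)) 0,
          (!₂[q.1, q.2] : EuclideanSpace ℝ (Fin 2)) 1) = dist p q := rfl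
      rw [e] at c1 c2
      have k1 := mul_le_mul_of_nonneg_right (le_abs_self K)
        (dist_nonneg (x := f !₂[p.1, p.2]) (y := f !₂[q.1, q.2]))
      have k2 := mul_le_mul_of_nonneg_right (le_abs_self K)
        (dist_nonneg (x := (!₂[p.1, p.2] : EuclideanSpace ℝ (Fin 2))) (y := !₂[q.1, q.2]))
      have k3 := mul_le_mul_of_nonneg_left c2 (abs_nonneg K)
      have k4 := mul_le_mul_of_nonneg_left d2 (abs_nonneg K)
      exact ⟨by linarith, by linarith⟩)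
  obtain ⟨k, i, j, w, σ, τ, hc, h4⟩ := form h1 h2
  refine ⟨k, (i, j), addr_iff.2 hc, w, σ, τ, fun x hx => ?_⟩
  have h5 := h3 _ (mem_carpet.1 hx)
  have e : (!₂[x 0, x 1] : EuclideanSpace ℝ (Fin 2)) = x := by
    ext i
    fin_cases i <;> rfl
  rw [h4 _ (mem_carpet.1 hx)] at h5
  simp only [e] at h5
  have h6 := (dist_cmp (f x) (cellMap k (i, j) w σ τ x)).2
  have e2 : (cellMap k (i, j) w σ τ x 0, cellMap k (i, j) w σ τ x 1) =
      psi k i j (mir σ (if w then x 1 else x 0), mir τ (if w then x 0 else x 1)) := rfl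
  rw [e2] at h6
  linarith

theorem cell_lip (k : ℕ) (c : ℤ × ℤ) (w s t : Bool) (x y : EuclideanSpace ℝ (Fin 2)) :
    dist (cellMap k c w s t x) (cellMap k c w s t y) ≤ 2 * dist x y := by
  refine (dist_cmp _ _).2.trans (mul_le_mul_of_nonneg_left ?_ zero_le_two)
  have e : ∀ z : EuclideanSpace ℝ (Fin 2), (cellMap k c w s t z 0, cellMap k c w s t z 1) =
      psi k c.1 c.2 (mir s (if w then z 1 else z 0), mir t (if w then z 0 else z 1)) :=
    fun _ => rfl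
  have h : ∀ (b : Bool) (u v : ℝ), dist (mir b u) (mir b v) = dist u v := fun b u v => by
    cases b
    · rfl
    · exact dist_sub_left 1 u v
  rw [e, e, dist_psi]
  refine (div_le_self dist_nonneg (one_le_pow₀ (by norm_num))).trans ?_
  rw [Prod.dist_eq, h, h]
  have h0 := PiLp.dist_apply_le x y 0
  have h1 := PiLp.dist_apply_le x y 1
  cases w
  · exact max_le h0 h1
  · exact max_le h1 h0

theorem main2 (K : ℝ) : ∃ B : ℝ, ∀ (η : ℝ) (E : Set (EuclideanSpace ℝ (Fin 2)))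
    (f : EuclideanSpace ℝ (Fin 2) → EuclideanSpace ℝ (Fin 2)), 0 ≤ η →
    (∀ x ∈ E, ∃ y ∈ carpet, dist x y ≤ η) → (∀ y ∈ carpet, ∃ x ∈ E, dist x y ≤ η) →
    (∀ x ∈ E, ∃ y ∈ carpet, dist (f x) y ≤ η) →
    (∀ x ∈ E, ∀ y ∈ E,
      dist x y ≤ K * dist (f x) (f y) + η ∧ dist (f x) (f y) ≤ K * dist x y + η) →
    ∃ k : ℕ, ∃ c ∈ addr k, ∃ w s t : Bool,
      ∀ x ∈ E, dist (f x) (cellMap k c w s t x) ≤ B * η := by
  obtain ⟨B, H⟩ := main |K|
  refine ⟨B * (2 * |K| + 3) + (2 * |K| + 3), fun η E f hη h1 h2 h3 h4 => ?_⟩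
  choose! r hr hr' using h2
  have h0 := abs_nonneg K
  have h5 : 0 ≤ |K| * η := by positivity
  have up : ∀ x ∈ E, ∀ y ∈ E, ∀ u : ℝ, dist x y ≤ u → dist (f x) (f y) ≤ |K| * u + η :=
    fun x hx y hy u hu => by
      linarith [(h4 x hx y hy).2, mul_le_mul_of_nonneg_left hu h0,
        mul_le_mul_of_nonneg_right (le_abs_self K) (dist_nonneg (x := x) (y := y))]
  obtain ⟨k, c, hc, w, s, t, h⟩ := H ((2 * |K| + 3) * η) (fun y => f (r y)) (by positivity)
    (fun y hy => by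
      obtain ⟨z, a, b⟩ := h3 _ (hr y hy)
      exact ⟨z, a, by linarith⟩)
    (fun x hx y hy => by
      have a1 := hr' x hx
      have a2 := hr' y hy
      have a3 := dist_triangle4_left (r x) (r y) x y
      have a4 := dist_triangle4_right (r x) (r y) x y
      have a5 := up _ (hr x hx) _ (hr y hy) (dist x y + 2 * η) (by linarith)
      have a6 := mul_le_mul_of_nonneg_right (le_abs_self K)
        (dist_nonneg (x := f (r x)) (y := f (r y)))
      exact ⟨by linarith [(h4 _ (hr x hx) _ (hr y hy)).1], by linarith⟩)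
  refine ⟨k, c, hc, w, s, t, fun x hx => ?_⟩
  obtain ⟨y, hy, a1⟩ := h1 x hx
  have a2 := up x hx _ (hr y hy) (2 * η) (by linarith [dist_triangle_right x (r y) y, hr' y hy])
  have a3 := h y hy
  have a4 := cell_lip k c w s t y x
  have a5 := dist_triangle4 (f x) (f (r y)) (cellMap k c w s t y) (cellMap k c w s t x)
  rw [dist_comm y] at a4
  linarith

end Pool.Agent.MP_d4b492_an.St
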