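import Pool.Agent.MP_d4b492_an.st.Pt
import Mathlib.MeasureTheory.Measure.Hausdorff
import Mathlib.MeasureTheory.Covering.BesicovitchVectorSpace
import Mathlib.Analysis.SpecialFunctions.Log.Base
import Mathlib.Analysis.Normed.Lp.MeasurableSpace

/-! Almost every point of a subset of the carpet is a point of density. -/

set_option autoImplicit false

open Set Filter Topology MeasureTheory
open scoped ENNReal NNReal

namespace Pool.Agent.MP_d4b492_an.St

theorem s_nonneg : 0 ≤ Real.logb 3 8 := Real.logb_nonneg (by norm_num) (by norm_num)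

theorem pow_s (n : ℕ) : (((3 : ℝ≥0) ^ n : ℝ≥0) : ℝ≥0∞) ^ Real.logb 3 8 = 8 ^ n := by
  have h : (3 : ℝ≥0∞) ^ Real.logb 3 8 = 8 := by
    have := ENNReal.ofReal_rpow_of_nonneg (x := 3) (by norm_num) s_nonneg
    rw [Real.rpow_logb (by norm_num) (by norm_num) (by norm_num)] at this
    simpa using this
  rw [ENNReal.coe_pow, ← ENNReal.rpow_natCast, ← ENNReal.rpow_mul, mul_comm, ENNReal.rpow_mul,
    ENNReal.coe_ofNat, h, ENNReal.rpow_natCast]

theorem pow_s' (n : ℕ) : ((((3 : ℝ≥0) ^ n)⁻¹ : ℝ≥0) : ℝ≥0∞) ^ Real.logb 3 8 = (8 ^ n)⁻¹ := by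
  rw [ENNReal.coe_inv (by positivity), ENNReal.inv_rpow, pow_s]

theorem psi_lip (n : ℕ) (i j : ℤ) : LipschitzWith ((3 : ℝ≥0) ^ n)⁻¹ (psi n i j) :=
  LipschitzWith.of_dist_le_mul fun p q => by
    rw [dist_psi, div_eq_inv_mul]
    simp

theorem psi_anti (n : ℕ) (i j : ℤ) : AntilipschitzWith ((3 : ℝ≥0) ^ n) (psi n i j) :=
  AntilipschitzWith.of_le_mul_dist fun p q => by
    rw [dist_psi]
    push_cast
    rw [mul_div_cancel₀ _ (by positivity)]

theorem psi_back (n : ℕ) (i j : ℤ) (x : Pt) :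
    psi n i j (3 ^ n * x.1 - i, 3 ^ n * x.2 - j) = x := by
  have h3 : (3 : ℝ) ^ n ≠ 0 := by positivity
  simp [psi, h3]

/-- A finite set that contains the addresses of level `n`. -/
noncomputable def cs : ℕ → Finset (ℤ × ℤ)
  | 0 => {(0, 0)}
  | n + 1 => (cs n ×ˢ ((Finset.Icc (0 : ℤ) 2 ×ˢ Finset.Icc (0 : ℤ) 2).erase (1, 1))).image
      fun a => (3 * a.1.1 + a.2.1, 3 * a.1.2 + a.2.2)

theorem cs_card (n : ℕ) : (cs n).card ≤ 8 ^ n := by
  induction n with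
  | zero => simp [cs]
  | succ n ih =>
    refine Finset.card_image_le.trans ?_
    rw [Finset.card_product, pow_succ]
    exact Nat.mul_le_mul ih (by decide)

theorem cs_mem {n : ℕ} {i j : ℤ} (h : Cell n i j) : (i, j) ∈ cs n := by
  induction h with
  | root => simp [cs]
  | @step n i j d e _ hd ih =>
    refine Finset.mem_image.2 ⟨((i, j), (d, e)), Finset.mem_product.2 ⟨ih, ?_⟩, rfl⟩
    obtain ⟨h1, h2, h3, h4, h5⟩ := hd
    simp only [Finset.mem_erase, Finset.mem_product, Finset.mem_Icc, ne_eq, Prod.mk.injEq]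
    exact ⟨h5, ⟨h1, h2⟩, h3, h4⟩

theorem ediam_cell (n : ℕ) (i j : ℤ) :
    Metric.ediam (psi n i j '' S) ≤ ((((3 : ℝ≥0) ^ n)⁻¹ : ℝ≥0) : ℝ≥0∞) := by
  refine ((psi_lip n i j).ediam_image_le S).trans (mul_le_of_le_one_right' ?_)
  refine Metric.ediam_le fun p hp q hq => ?_
  rw [edist_dist]
  exact ENNReal.ofReal_le_one.2 (dist_S hp hq)

theorem fin_S : μH[Real.logb 3 8] S ≤ 1 := by
  refine (Measure.hausdorffMeasure_le_liminf_sum (ι := fun n : ℕ => cs n) (Real.logb 3 8) S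
    (l := atTop) (fun n => ((((3 : ℝ≥0) ^ n)⁻¹ : ℝ≥0) : ℝ≥0∞)) ?_
    (fun n c => psi n c.1.1 c.1.2 '' S) (Eventually.of_forall fun n c => ediam_cell _ _ _)
    (Eventually.of_forall fun n p hp => ?_)).trans ?_
  · rw [← ENNReal.coe_zero, ENNReal.tendsto_coe]
    simp only [← inv_pow]
    exact tendsto_pow_atTop_nhds_zero_of_lt_one (by positivity) (by norm_num [inv_lt_one_iff₀])
  · obtain ⟨i, j, hc, h⟩ := exists_cell n hp
    exact mem_iUnion.2 ⟨⟨(i, j), cs_mem hc⟩, _, h, psi_back n i j p⟩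
  · refine liminf_le_of_frequently_le' (Frequently.of_forall fun n => ?_)
    refine (Finset.sum_le_card_nsmul _ _ ((8 : ℝ≥0∞) ^ n)⁻¹ fun c _ => ?_).trans ?_
    · rw [← pow_s']
      exact ENNReal.rpow_le_rpow (ediam_cell _ _ _) s_nonneg
    · rw [Finset.card_univ, Fintype.card_coe, nsmul_eq_mul]
      have h : ((cs n).card : ℝ≥0∞) ≤ 8 ^ n := by exact_mod_cast cs_card n
      exact (mul_le_mul_left h _).trans (ENNReal.mul_inv_le_one _)

theorem ball_le {n : ℕ} {i j : ℤ} {x : Pt} (hx : (3 ^ n * x.1 - i, 3 ^ n * x.2 - j) ∈ S) :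
    μH[Real.logb 3 8] (Metric.closedBall x (1 / 3 ^ n) ∩ S) ≤
      25 * ((8 ^ n)⁻¹ * μH[Real.logb 3 8] S) := by
  have h3 : (0 : ℝ) < 3 ^ n := by positivity
  have hsub : Metric.closedBall x (1 / 3 ^ n) ∩ S ⊆
      ⋃ c ∈ Finset.Icc (i - 2) (i + 2) ×ˢ Finset.Icc (j - 2) (j + 2), psi n c.1 c.2 '' S := by
    rintro y ⟨h1, h2⟩
    obtain ⟨a, b, -, h⟩ := exists_cell n h2
    refine mem_iUnion₂.2 ⟨(a, b), ?_, _, h, psi_back n a b y⟩
    rw [Metric.mem_closedBall, le_div_iff₀ h3, Prod.dist_eq, max_mul_of_nonneg _ _ h3.le,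
      max_le_iff, Real.dist_eq, Real.dist_eq, ← abs_of_pos h3, ← abs_mul, ← abs_mul, abs_le,
      abs_le] at h1
    obtain ⟨-, u1, u2, u3, u4⟩ := hx
    obtain ⟨-, v1, v2, v3, v4⟩ := h
    simp only at u1 u2 u3 u4 v1 v2 v3 v4
    have a1 : (i : ℝ) - 2 ≤ a := by linarith [h1.1.1]
    have a2 : (a : ℝ) ≤ i + 2 := by linarith [h1.1.2]
    have a3 : (j : ℝ) - 2 ≤ b := by linarith [h1.2.1]
    have a4 : (b : ℝ) ≤ j + 2 := by linarith [h1.2.2]
    simp only [Finset.mem_product, Finset.mem_Icc]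
    exact ⟨⟨by exact_mod_cast a1, by exact_mod_cast a2⟩, by exact_mod_cast a3, by exact_mod_cast a4⟩
  refine (measure_mono hsub).trans ((measure_biUnion_finset_le _ _).trans
    ((Finset.sum_le_card_nsmul _ _ ((8 ^ n)⁻¹ * μH[Real.logb 3 8] S) fun c _ => ?_).trans ?_))
  · rw [← pow_s']
    exact (psi_lip _ _ _).hausdorffMeasure_image_le s_nonneg S
  · rw [Finset.card_product, Int.card_Icc, Int.card_Icc, show i + 2 + 1 - (i - 2) = 5 by ring,
      show j + 2 + 1 - (j - 2) = 5 by ring, nsmul_eq_mul]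
    exact le_rfl

theorem ratio {a h b N : ℝ≥0∞} (h1 : a + h ≤ b) (h2 : b ≤ N * h) (hb : b ≠ ∞) (h0 : N ≠ 0)
    (hN : N ≠ ∞) : a / b ≤ 1 - N⁻¹ := by
  refine ENNReal.div_le_of_le_mul ?_
  rw [ENNReal.sub_mul fun _ _ => hb, one_mul]
  have h3 : N⁻¹ * b ≤ h := by
    refine (mul_le_mul_right h2 _).trans ?_
    rw [← mul_assoc, ENNReal.inv_mul_cancel h0 hN, one_mul]
  exact (ENNReal.le_sub_of_add_le_right (ne_top_of_le_ne_top hb (le_add_self.trans h1)) h1).trans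
    (tsub_le_tsub_left h3 _)

theorem dens {E : Set Pt} (hE : E ⊆ S) {δ : ℝ} (hδ : 0 < δ) :
    μH[Real.logb 3 8] {x | x ∈ E ∧ ¬∃ n₀ : ℕ, ∀ n i j, n₀ ≤ n → Cell n i j →
      (3 ^ n * x.1 - i, 3 ^ n * x.2 - j) ∈ S → Dn δ E n i j} = 0 := by
  have hm := isClosed_S.measurableSet
  have hf : μH[Real.logb 3 8] S < ∞ := fin_S.trans_lt ENNReal.one_lt_top
  have : IsFiniteMeasure ((μH[Real.logb 3 8] : Measure Pt).restrict S) :=
    ⟨by rwa [Measure.restrict_apply_univ]⟩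
  obtain ⟨l, hl⟩ := pow_unbounded_of_one_lt (1 / δ) (by norm_num : (1 : ℝ) < 3)
  have hl' : 1 / 3 ^ l ≤ δ := by
    rw [div_le_iff₀ (by positivity), mul_comm, ← div_le_iff₀ hδ]
    exact hl.le
  have hB := Besicovitch.ae_tendsto_measure_inter_div
    ((μH[Real.logb 3 8] : Measure Pt).restrict S) E
  have hG : ∀ᵐ x : Pt ∂((μH[Real.logb 3 8] : Measure Pt).restrict S).restrict E,
      ∃ n₀ : ℕ, ∀ (n : ℕ) (i j : ℤ), n₀ ≤ n → Cell n i j →
        (3 ^ n * x.1 - i, 3 ^ n * x.2 - j) ∈ S → Dn δ E n i j := by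
    filter_upwards [hB] with x hx
    have hr : Tendsto (fun n : ℕ => (1 : ℝ) / 3 ^ n) atTop (𝓝[>] 0) :=
      tendsto_nhdsWithin_iff.2 ⟨by
        simpa [← inv_pow] using tendsto_pow_atTop_nhds_zero_of_lt_one (r := (3 : ℝ)⁻¹)
          (by norm_num) (by norm_num), Eventually.of_forall fun n => by
        show (0 : ℝ) < _
        positivity⟩
    have hN0 : (25 * 8 ^ l : ℝ≥0∞) ≠ 0 := by positivity
    have hN : (25 * 8 ^ l : ℝ≥0∞) ≠ ∞ := by finiteness
    obtain ⟨n₀, h⟩ := eventually_atTop.1 ((hx.comp hr).eventually (lt_mem_nhds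
      (ENNReal.sub_lt_self ENNReal.one_ne_top one_ne_zero (ENNReal.inv_ne_zero.2 hN))))
    refine ⟨n₀, fun n i j hn hc hy q hq => by_contra fun hd => (h n hn).not_ge ?_⟩
    obtain ⟨a, b, hc', hq'⟩ := exists_cell l hq
    have hH : MeasurableSet (psi (l + n) (3 ^ l * i + a) (3 ^ l * j + b) '' S) :=
      (isCompact_S.image (psi_lip _ _ _).continuous).isClosed.measurableSet
    have hs : psi (l + n) (3 ^ l * i + a) (3 ^ l * j + b) '' S ⊆ S := by
      rintro _ ⟨p, hp, rfl⟩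
      rw [← psi_psi]
      exact hc.psi_mem (hc'.psi_mem hp)
    refine ratio (h := (μH[Real.logb 3 8] : Measure Pt).restrict S
      (psi (l + n) (3 ^ l * i + a) (3 ^ l * j + b) '' S)) ?_ ?_ (measure_ne_top _ _) hN0 hN
    · rw [← measure_union (disjoint_left.2 ?_) hH]
      · refine measure_mono (union_subset inter_subset_right ?_)
        rintro _ ⟨p, hp, rfl⟩
        rw [Metric.mem_closedBall, ← psi_psi, ← psi_back n i j x, dist_psi]
        exact div_le_div_of_nonneg_right (dist_S (hc'.psi_mem hp) hy) (by positivity)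
      · rintro _ ⟨h1, -⟩ ⟨p, hp, rfl⟩
        refine hd ⟨_, hc'.psi_mem hp, by rwa [psi_psi], le_trans ?_ hl'⟩
        rw [← psi_back l a b q, dist_psi]
        exact div_le_div_of_nonneg_right (dist_S hq' hp) (by positivity)
    · rw [Measure.restrict_apply' hm, Measure.restrict_apply' hm, inter_eq_left.2 hs]
      refine (ball_le hy).trans ?_
      have h1 := (psi_anti (l + n) (3 ^ l * i + a) (3 ^ l * j + b)).le_hausdorffMeasure_image
        s_nonneg S
      rw [pow_s, pow_add] at h1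
      rw [mul_assoc]
      refine mul_le_mul_right ((mul_le_mul_right h1 _).trans_eq ?_) _
      rw [mul_comm (8 ^ l : ℝ≥0∞), mul_assoc, ← mul_assoc,
        ENNReal.inv_mul_cancel (by positivity) (by finiteness), one_mul]
  have h1 := (Measure.le_restrict_apply _ _).trans (ae_iff.1 hG).le
  rw [Measure.restrict_apply' hm] at h1
  refine measure_mono_null (fun x hx => ?_) (nonpos_iff_eq_zero.1 h1)
  exact ⟨⟨hx.2, hx.1⟩, hE hx.1⟩

theorem main3 (K : ℝ) (E : Set (EuclideanSpace ℝ (Fin 2)))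
    (f : EuclideanSpace ℝ (Fin 2) → EuclideanSpace ℝ (Fin 2)) (hE : E ⊆ carpet)
    (hf : MapsTo f E carpet)
    (h : ∀ x ∈ E, ∀ y ∈ E, dist x y ≤ K * dist (f x) (f y) ∧ dist (f x) (f y) ≤ K * dist x y) :
    μH[Real.logb 3 8] {x | x ∈ E ∧ ¬∃ (n k : ℕ) (c : ℤ × ℤ) (w s t : Bool),
      f x = cellMap k c w s t ((3 : ℝ) ^ n • x)} = 0 := by
  obtain ⟨δ, hδ, H⟩ := point (K := 2 * |K|) (by positivity)
  let τ : Pt → EuclideanSpace ℝ (Fin 2) := fun p => !₂[p.1, p.2]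
  have hτ : LipschitzWith 2 τ := LipschitzWith.of_dist_le_mul fun p q => (dist_cmp (τ p) (τ q)).2
  have hS : τ ⁻¹' E ⊆ S := fun p hp => mem_carpet.1 (hE hp)
  have h0 := hτ.hausdorffMeasure_image_le s_nonneg _ |>.trans_eq
    (by rw [dens hS hδ, mul_zero])
  refine measure_mono_null (fun x hx => ?_) (nonpos_iff_eq_zero.1 h0)
  have e : τ (x 0, x 1) = x := by
    ext i
    fin_cases i <;> rfl
  have hx' : (x 0, x 1) ∈ τ ⁻¹' E := by rw [mem_preimage, e]; exact hx.1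
  refine ⟨(x 0, x 1), ⟨hx', fun ⟨n₀, hn⟩ => hx.2 ?_⟩, e⟩
  obtain ⟨n, k, i, j, w, σ, ρ, hk⟩ := H (τ ⁻¹' E) (fun p => (f (τ p) 0, f (τ p) 1)) _ n₀ (hS hx')
    hx' (fun p hp => (mem_carpet.1 (hf hp)).1) (fun p hp q hq => by
      obtain ⟨a, b⟩ := h _ hp _ hq
      obtain ⟨c1, c2⟩ : dist p q ≤ dist (τ p) (τ q) ∧ dist (τ p) (τ q) ≤ 2 * dist p q :=
        dist_cmp (τ p) (τ q)
      obtain ⟨d1, d2⟩ := dist_cmp (f (τ p)) (f (τ q))
      have k1 := mul_le_mul_of_nonneg_right (le_abs_self K)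
        (dist_nonneg (x := f (τ p)) (y := f (τ q)))
      have k2 := mul_le_mul_of_nonneg_right (le_abs_self K) (dist_nonneg (x := τ p) (y := τ q))
      have k3 := mul_le_mul_of_nonneg_left c2 (abs_nonneg K)
      have k4 := mul_le_mul_of_nonneg_left d2 (abs_nonneg K)
      exact ⟨by linarith, by linarith⟩) hn
  refine ⟨n, k, (i, j), w, σ, ρ, ?_⟩
  rw [e] at hk
  ext a
  fin_cases a
  · exact congrArg Prod.fst hk
  · exact congrArg Prod.snd hk

end Pool.Agent.MP_d4b492_an.St
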