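import Pool.Agent.MP_d4b492_an.st.Fin

/-! Maps on subsets of the carpet: the value at a point near which the subset is dense. -/

set_option autoImplicit false

open Set Filter Topology

namespace Pool.Agent.MP_d4b492_an.St

/-- The set `E` is dense in the square with address `i j`, relative to its size. -/
def Dn (δ : ℝ) (E : Set Pt) (n : ℕ) (i j : ℤ) : Prop :=
  ∀ q ∈ S, ∃ r ∈ S, psi n i j r ∈ E ∧ dist q r ≤ δ

/-- Bi-Lipschitz on `E`. -/
def Bl (K : ℝ) (E : Set Pt) (f : Pt → Pt) : Prop := ∀ p ∈ E, ∀ q ∈ E,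
  dist p q ≤ K * dist (f p) (f q) ∧ dist (f p) (f q) ≤ K * dist p q

variable {K : ℝ} {E : Set Pt} {f : Pt → Pt}

theorem Bl.sc (h : Bl K E f) (n : ℕ) (i j : ℤ) : Bl K (psi n i j ⁻¹' E) (sc n i j f) :=
  fun p hp q hq => by
    have h3 : (0 : ℝ) < 3 ^ n := by positivity
    obtain ⟨h1, h2⟩ := h _ hp _ hq
    rw [dist_psi] at h1 h2
    have e : dist p q = 3 ^ n * (dist p q / 3 ^ n) := by field_simp
    simp only [St.sc, dist3]
    rw [e]
    exact ⟨by linarith [mul_le_mul_of_nonneg_left h1 h3.le],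
      by linarith [mul_le_mul_of_nonneg_left h2 h3.le]⟩

theorem approx (hK : 0 ≤ K) {ε : ℝ} (hε : 0 < ε) : ∃ δ > 0, K * δ ≤ ε ∧
    ∀ (E : Set Pt) (f : Pt → Pt), (∀ p ∈ E, f p ∈ P) → Bl K E f →
      (∀ q ∈ S, ∃ r ∈ E, dist q r ≤ δ) → ∃ φ : Pt → Pt, (∀ p ∈ S, φ p ∈ P) ∧ Ro K 0 φ ∧
        ∀ p ∈ S, p ∈ E → dist (f p) (φ p) ≤ 2 * ε := by
  obtain ⟨δ₀, h0, H⟩ := compP hK hε
  obtain ⟨δ, hδ, l1, l2⟩ : ∃ δ : ℝ, 0 < δ ∧ (2 * K + 2) * δ ≤ δ₀ ∧ (2 * K + 2) * δ ≤ ε :=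
    ⟨min δ₀ ε / (2 * K + 2), by positivity,
      by rw [mul_div_cancel₀ _ (by positivity)]; exact min_le_left _ _,
      by rw [mul_div_cancel₀ _ (by positivity)]; exact min_le_right _ _⟩
  have h1 : 0 ≤ K * δ := by positivity
  refine ⟨δ, hδ, by linarith, fun E f hP hB hD => ?_⟩
  choose! r hr hr' using hD
  obtain ⟨φ, a, b, c⟩ := H (fun q => f (r q))
    (fun q hq => ⟨_, hP _ (hr q hq), by simpa using h0.le⟩) (fun p hp q hq => by
      obtain ⟨u, v⟩ := hB _ (hr p hp) _ (hr q hq)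
      have a1 := hr' p hp
      have a2 := hr' q hq
      have a3 := dist_triangle4_right p q (r p) (r q)
      have a4 := dist_triangle4_left p q (r p) (r q)
      have a5 := mul_le_mul_of_nonneg_left
        (show dist (r p) (r q) ≤ dist p q + 2 * δ by linarith) hK
      exact ⟨by linarith, by linarith⟩)
  refine ⟨φ, a, b, fun p hp hp' => ?_⟩
  have a1 := (hB p hp' _ (hr p hp)).2
  have a2 := mul_le_mul_of_nonneg_left (hr' p hp) hK
  have a3 := dist_triangle (f p) (f (r p)) (φ p)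
  linarith [c p hp]

theorem point0 (hK : 0 ≤ K) : ∃ δ > 0, ∀ (E : Set Pt) (f : Pt → Pt) (x : Pt), x ∈ S → x ∈ E →
    (∀ p ∈ E, f p ∈ P) → Bl K E f →
    (∀ n i j, Cell n i j → (3 ^ n * x.1 - i, 3 ^ n * x.2 - j) ∈ S → Dn δ E n i j) →
    ∃ φ : Pt → Pt, (∀ p ∈ S, φ p ∈ P) ∧ Ro K 0 φ ∧ f x = φ x := by
  obtain ⟨A, hA⟩ := pow_unbounded_of_one_lt K (by norm_num : (1 : ℝ) < 3)
  obtain ⟨ε, hε, hεA⟩ : ∃ ε : ℝ, 0 < ε ∧ 3 ^ A * (10 * ε) < 1 :=
    ⟨1 / (11 * 3 ^ A), by positivity, by field_simp; norm_num⟩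
  obtain ⟨δ, hδ, hKδ, H⟩ := approx hK hε
  refine ⟨δ, hδ, fun E f x hx hxE hP hB hD => ?_⟩
  obtain ⟨φ, f1, f2, f3⟩ := H E f hP hB fun q hq => by
    obtain ⟨r, -, a, b⟩ := hD 0 0 0 Cell.root (by simpa using hx) q hq
    exact ⟨r, by rwa [psi_zero] at a, b⟩
  have key : ∀ n : ℕ, ∃ i j, Cell n i j ∧ (3 ^ n * x.1 - i, 3 ^ n * x.2 - j) ∈ S ∧
      ∀ p ∈ S, psi n i j p ∈ E → 3 ^ n * dist (f (psi n i j p)) (φ (psi n i j p)) ≤ 2 * ε := by
    intro n
    induction n with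
    | zero => exact ⟨0, 0, Cell.root, by simpa using hx, by simpa [psi_zero] using f3⟩
    | succ n ih =>
      obtain ⟨i, j, hc, hy, ih⟩ := ih
      obtain ⟨d, e, hd, hy'⟩ := S_split hy
      have hc' := hc.step hd
      have hz : (3 ^ (n + 1) * x.1 - ((3 * i + d : ℤ) : ℝ),
          3 ^ (n + 1) * x.2 - ((3 * j + e : ℤ) : ℝ)) ∈ S :=
        (congrArg (· ∈ S) (Prod.ext (by push_cast; ring) (by push_cast; ring))).mp hy'
      have hD' := hD _ _ _ hc' hz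
      obtain ⟨ψ, g1, g2, g3⟩ := H (psi (n + 1) (3 * i + d) (3 * j + e) ⁻¹' E)
        (sc (n + 1) (3 * i + d) (3 * j + e) f)
        (fun p hp => P_mul_pow (x := (f _).1) (y := (f _).2) (hP _ hp) (n + 1))
        (hB.sc (n + 1) (3 * i + d) (3 * j + e)) fun q hq =>
          let ⟨r, _, a, b⟩ := hD' q hq; ⟨r, a, b⟩
      have g4 : Ro K 0 (sc (n + 1) (3 * i + d) (3 * j + e) φ) := by simpa using f2.sc hc'
      have e1 := disc hA.le g1 g2 (g := sc (n + 1) (3 * i + d) (3 * j + e) φ)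
        (fun q hq => P_mul_pow (x := (φ _).1) (y := (φ _).2) (f1 _ (hc'.psi_mem hq)) _) g4
        (fun q hq => by
          obtain ⟨r, hr, a, b⟩ := hD' q hq
          have a2 : psi n i j ((r.1 + d) / 3, (r.2 + e) / 3) =
              psi (n + 1) (3 * i + d) (3 * j + e) r := by
            simp only [psi]
            ext <;> push_cast <;> field_simp <;> ring
          have a1 := ih _ (S_sub hr hd) (a2 ▸ a)
          rw [a2] at a1
          have a3 : dist (sc (n + 1) (3 * i + d) (3 * j + e) f r)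
              (sc (n + 1) (3 * i + d) (3 * j + e) φ r) ≤ 6 * ε := by
            rw [sc, sc, dist3, pow_succ]
            linarith
          have a4 := g3 r hr a
          have a5 := (g2 q hq r hr).2
          have a6 := (g4 q hq r hr).2
          have a7 := mul_le_mul_of_nonneg_left b hK
          have a8 := dist_triangle4_right (ψ q) (sc (n + 1) (3 * i + d) (3 * j + e) φ q) (ψ r)
            (sc (n + 1) (3 * i + d) (3 * j + e) φ r)
          have a9 := dist_triangle_left (ψ r) (sc (n + 1) (3 * i + d) (3 * j + e) φ r)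
            (sc (n + 1) (3 * i + d) (3 * j + e) f r)
          refine lt_of_le_of_lt (mul_le_mul_of_nonneg_left ?_ (by positivity)) hεA
          linarith)
      refine ⟨_, _, hc', hz, fun p hp hp' => ?_⟩
      have := g3 p hp hp'
      rwa [e1 p hp, sc, sc, dist3] at this
  refine ⟨φ, f1, f2, eq_of_dist_eq_zero (le_antisymm (not_lt.1 fun h => ?_) dist_nonneg)⟩
  obtain ⟨n, hn⟩ := pow_unbounded_of_one_lt (2 * ε / dist (f x) (φ x)) (by norm_num : (1 : ℝ) < 3)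
  rw [div_lt_iff₀ h] at hn
  obtain ⟨i, j, -, hy, k⟩ := key n
  have h3 : (3 : ℝ) ^ n ≠ 0 := by positivity
  have e : psi n i j (3 ^ n * x.1 - i, 3 ^ n * x.2 - j) = x := by simp [psi, h3]
  have := k _ hy (e.symm ▸ hxE)
  rw [e] at this
  linarith

theorem form2 {u v s t : ℝ} {m : ℤ} {A k : ℕ} (hk : (A : ℤ) + m = k) (hu : |u| = 3 ^ m)
    (hv : |v| = 3 ^ m) (h : ∀ p ∈ S, (u * p.1 + s, v * p.2 + t) ∈ P) (i j : ℤ) :
    ∃ (i' j' : ℤ) (σ τ : Bool), ∀ x y : ℝ,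
      (u * (x - i) + s, v * (y - j) + t) = psi A i' j' (mir σ (3 ^ k * x), mir τ (3 ^ k * y)) := by
  have h3 : (0 : ℝ) < 3 ^ k := by positivity
  have h4 : (0 : ℝ) < 3 ^ A := by positivity
  have h1 : ∀ w : ℝ, |w| = 3 ^ m → |3 ^ A * w| = 3 ^ k := fun w hw => by
    rw [abs_mul, hw, abs_of_pos h4, ← zpow_natCast, ← zpow_add₀ (by norm_num), hk, zpow_natCast]
  have h2 : ∀ w : ℝ, |w| = 3 ^ m → |3 ^ A * w / 3 ^ k| = 1 := fun w hw => by
    rw [abs_div, h1 w hw, abs_of_pos h3, div_self h3.ne']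
  obtain ⟨⟨z, hz⟩, z', hz'⟩ := shift3 (h1 u hu) (h1 v hv) (s := 3 ^ A * s) (t := 3 ^ A * t)
    fun p hp => (congrArg (· ∈ P) (Prod.ext (by ring) (by ring))).mp (P_mul_pow (h p hp) A)
  obtain ⟨a, ha⟩ := int_abs (h1 u hu)
  obtain ⟨b, hb⟩ := int_abs (h1 v hv)
  obtain ⟨σ, i', hi⟩ := one_dim (h2 u hu) (z - a * i)
  obtain ⟨τ, j', hj⟩ := one_dim (h2 v hv) (z' - b * j)
  refine ⟨i', j', σ, τ, fun x y => ?_⟩
  simp only [psi, ← hi, ← hj]
  push_cast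
  rw [← hz, ← hz', ← ha, ← hb]
  refine Prod.ext ?_ ?_ <;> simp only <;> field_simp <;> ring

theorem point (hK : 0 ≤ K) : ∃ δ > 0, ∀ (E : Set Pt) (f : Pt → Pt) (x : Pt) (n₀ : ℕ), x ∈ S →
    x ∈ E → (∀ p ∈ E, f p ∈ P) → Bl K E f →
    (∀ n i j, n₀ ≤ n → Cell n i j → (3 ^ n * x.1 - i, 3 ^ n * x.2 - j) ∈ S → Dn δ E n i j) →
    ∃ (n k : ℕ) (i j : ℤ) (w σ τ : Bool), f x = psi k i j
      (mir σ (if w then 3 ^ n * x.2 else 3 ^ n * x.1),
        mir τ (if w then 3 ^ n * x.1 else 3 ^ n * x.2)) := by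
  obtain ⟨δ, hδ, H⟩ := point0 hK
  refine ⟨δ, hδ, fun E f x n₀ hx hxE hP hB hD => ?_⟩
  obtain ⟨i, j, hc, hy⟩ := exists_cell n₀ hx
  have h3 : (3 : ℝ) ^ n₀ ≠ 0 := by positivity
  have e : psi n₀ i j (3 ^ n₀ * x.1 - i, 3 ^ n₀ * x.2 - j) = x := by simp [psi, h3]
  obtain ⟨φ, f1, f2, f3⟩ := H (psi n₀ i j ⁻¹' E) (sc n₀ i j f) _ hy
    (show psi n₀ i j _ ∈ E from e.symm ▸ hxE)
    (fun p hp => P_mul_pow (x := (f _).1) (y := (f _).2) (hP _ hp) n₀) (hB.sc n₀ i j)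
    fun n a b hc' hz q hq => by
      obtain ⟨r, hr, u, v⟩ := hD (n + n₀) (3 ^ n * i + a) (3 ^ n * j + b) (by omega)
        (cell_of_mem (by
          rw [← psi_psi]
          exact hc.psi_mem (hc'.psi_mem (line_mem_W third_mem_C (by norm_num) (by norm_num)))))
        ((congrArg (· ∈ S) (Prod.ext (by push_cast; ring) (by push_cast; ring))).mp hz) q hq
      exact ⟨r, hr, by rwa [← psi_psi] at u, v⟩
  rw [sc, e] at f3
  obtain ⟨a, b, c, d, s, t, m, hA, hm, -⟩ := cls f1 f2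
  rw [hA _ hy] at f3
  have hk : ((m.natAbs : ℕ) : ℤ) + m = ((m.natAbs + m).toNat : ℕ) := by omega
  have fin : ∀ (k : ℕ) (i' j' : ℤ) (p : Pt), (3 : ℝ) ^ n₀ • f x = psi k i' j' p →
      f x = psi (k + n₀) i' j' p := fun k i' j' p h => by
    have h1 := congrArg Prod.fst h
    have h2 := congrArg Prod.snd h
    simp only [psi, Prod.smul_fst, Prod.smul_snd, smul_eq_mul] at h1 h2 ⊢
    refine Prod.ext ?_ ?_ <;> simp only <;> rw [pow_add, ← div_div]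
    · rw [← h1, mul_div_cancel_left₀ _ h3]
    · rw [← h2, mul_div_cancel_left₀ _ h3]
  rcases hm with ⟨u, v, rfl, rfl⟩ | ⟨u, v, rfl, rfl⟩
  · obtain ⟨i', j', σ, τ, h⟩ := form2 hk u v (s := s) (t := t)
      (fun p hp => by simpa [hA p hp] using f1 p hp) i j
    refine ⟨(m.natAbs + m).toNat + n₀, _, i', j', false, σ, τ, fin m.natAbs _ _ _ (f3.trans ?_)⟩
    simpa [pow_add, mul_assoc] using h (3 ^ n₀ * x.1) (3 ^ n₀ * x.2)
  · obtain ⟨i', j', σ, τ, h⟩ := form2 hk u v (s := s) (t := t)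
      (fun p hp => by simpa [hA _ (S_swap hp)] using f1 _ (S_swap hp)) j i
    refine ⟨(m.natAbs + m).toNat + n₀, _, i', j', true, σ, τ, fin m.natAbs _ _ _ (f3.trans ?_)⟩
    simpa [pow_add, mul_assoc] using h (3 ^ n₀ * x.2) (3 ^ n₀ * x.1)

end Pool.Agent.MP_d4b492_an.St
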