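import Pool.Agent.MP_d4b492_an.st.Cls

/-! Rough embeddings of the carpet are close to exact ones, with a linear bound. -/

set_option autoImplicit false

open Set Filter Topology

namespace Pool.Agent.MP_d4b492_an.St

/-- The image of the carpet is close to `Y`. -/
def Nr (Y : Set Pt) (η : ℝ) (g : Pt → Pt) : Prop := ∀ p ∈ S, ∃ q ∈ Y, dist (g p) q ≤ η

variable {K η δ ε : ℝ} {f g : Pt → Pt} {Y : Set Pt}

theorem Nr.mono (h : Nr Y η g) (hl : η ≤ δ) : Nr Y δ g := fun p hp =>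
  let ⟨q, a, b⟩ := h p hp; ⟨q, a, b.trans hl⟩

theorem Ro.mono (h : Ro K η g) (hl : η ≤ δ) : Ro K δ g := fun p hp q hq =>
  ⟨by linarith [(h p hp q hq).1], by linarith [(h p hp q hq).2]⟩

theorem isClosed_S : IsClosed S := by
  have : S = P ∩ Icc (0, 0) (1, 1) := by
    ext p
    simp only [S, W, mem_ofPred_eq, mem_inter_iff, mem_Icc, Prod.le_def]
    tauto
  rw [this]
  exact isClosed_P.inter isClosed_Icc

theorem isCompact_S : IsCompact S :=
  (isCompact_Icc (a := ((0 : ℝ), (0 : ℝ))) (b := (1, 1))).of_isClosed_subset isClosed_S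
    fun _ h => ⟨⟨h.2.1, h.2.2.2.1⟩, h.2.2.1, h.2.2.2.2⟩

theorem dist_S {p q : Pt} (hp : p ∈ S) (hq : q ∈ S) : dist p q ≤ 1 := by
  obtain ⟨-, a, b, c, d⟩ := hp
  obtain ⟨-, a', b', c', d'⟩ := hq
  rw [Prod.dist_eq, max_le_iff, Real.dist_eq, Real.dist_eq, abs_le, abs_le]
  refine ⟨⟨?_, ?_⟩, ?_, ?_⟩ <;> linarith

theorem ulim {Z : Set Pt} (hZ : IsCompact Z) (u : ℕ → Pt) (h : ∀ m, u m ∈ Z) :
    ∃ z ∈ Z, Tendsto u (hyperfilter ℕ : Filter ℕ) (𝓝 z) :=
  hZ.ultrafilter_le_nhds ((hyperfilter ℕ).map u) (by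
    rw [Ultrafilter.coe_map, le_principal_iff, mem_map]
    exact univ_mem' h)

theorem comp (hY : IsClosed Y) (hK : 0 ≤ K) (hε : 0 < ε) : ∃ δ > 0, ∀ g, ‖g (0, 0)‖ ≤ 2 →
    Nr Y δ g → Ro K δ g → ∃ φ : Pt → Pt, (∀ p ∈ S, φ p ∈ Y) ∧ Ro K 0 φ ∧
      ∀ p ∈ S, dist (g p) (φ p) ≤ ε := by
  by_contra hc
  push Not at hc
  choose g g0 gn gr gc using fun m : ℕ => hc (1 / ((m : ℝ) + 1)) (by positivity)
  have hd : Tendsto (fun m : ℕ => 1 / ((m : ℝ) + 1)) (hyperfilter ℕ : Filter ℕ) (𝓝 0) :=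
    tendsto_one_div_add_atTop_nhds_zero_nat.mono_left hyper_le
  have hb : ∀ p : Pt, ∃ z : Pt, p ∈ S →
      Tendsto (fun m => g m p) (hyperfilter ℕ : Filter ℕ) (𝓝 z) := fun p => by
    by_cases hp : p ∈ S
    · obtain ⟨z, -, hz⟩ := ulim (isCompact_closedBall (0 : Pt) (K + 3)) (fun m => g m p) fun m => by
        have h1 := (gr m p hp _ c00).2
        have h2 := dist_triangle (g m p) (g m (0, 0)) 0
        have h3 := mul_le_mul_of_nonneg_left (dist_S hp c00) hK
        have h4 : 1 / ((m : ℝ) + 1) ≤ 1 := by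
          rw [div_le_one (by positivity)]
          linarith [Nat.cast_nonneg (α := ℝ) m]
        have h5 := g0 m
        rw [← dist_zero_right] at h5
        rw [Metric.mem_closedBall]
        linarith
      exact ⟨z, fun _ => hz⟩
    · exact ⟨0, fun h => absurd h hp⟩
  choose G hG using hb
  have hGY : ∀ p ∈ S, G p ∈ Y := fun p hp => by
    choose q hq hq' using fun m => gn m p hp
    exact hY.mem_of_tendsto ((hG p hp).congr_dist (squeeze_zero (fun _ => dist_nonneg) hq' hd))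
      (Eventually.of_forall hq)
  have hGR : Ro K 0 G := fun p hp q hq =>
    ⟨ge_of_tendsto' ((((hG p hp).dist (hG q hq)).const_mul K).add hd) fun m => (gr m p hp q hq).1,
      le_of_tendsto_of_tendsto' ((hG p hp).dist (hG q hq)) (hd.const_add _)
        fun m => (gr m p hp q hq).2⟩
  choose u hu hu' using fun m => gc m G hGY hGR
  obtain ⟨z, hz, hl⟩ := ulim isCompact_S u hu
  have h1 := (tendsto_iff_dist_tendsto_zero.1 hl).const_mul K
  have h2 := ((h1.add hd).add (tendsto_iff_dist_tendsto_zero.1 (hG z hz))).add h1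
  have h3 := ge_of_tendsto' (b := ε) h2 fun m => by
    have a1 := (gr m _ (hu m) z hz).2
    have a2 := (hGR _ (hu m) z hz).2
    have a3 := dist_triangle4 (g m (u m)) (g m z) (G z) (G (u m))
    have a4 := hu' m
    rw [dist_comm (G z)] at a3
    linarith
  linarith

theorem compP (hK : 0 ≤ K) (hε : 0 < ε) : ∃ δ > 0, ∀ g, Nr P δ g → Ro K δ g →
    ∃ φ : Pt → Pt, (∀ p ∈ S, φ p ∈ P) ∧ Ro K 0 φ ∧ ∀ p ∈ S, dist (g p) (φ p) ≤ ε := by
  obtain ⟨δ, hδ, H⟩ := comp isClosed_P hK hε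
  refine ⟨δ, hδ, fun g gn gr => ?_⟩
  obtain ⟨φ, h1, h2, h3⟩ := H (fun p => g p - ((⌊(g (0, 0)).1⌋ : ℝ), (⌊(g (0, 0)).2⌋ : ℝ))) (by
      rw [Prod.norm_def, max_le_iff, Real.norm_eq_abs, Real.norm_eq_abs, abs_le, abs_le]
      simp only [Prod.fst_sub, Prod.snd_sub]
      refine ⟨⟨?_, ?_⟩, ?_, ?_⟩ <;>
        linarith [Int.floor_le (g (0, 0)).1, Int.lt_floor_add_one (g (0, 0)).1,
          Int.floor_le (g (0, 0)).2, Int.lt_floor_add_one (g (0, 0)).2])
    (fun p hp => by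
      obtain ⟨q, a, b⟩ := gn p hp
      exact ⟨q - _, (P_sub_int _ _).2 a, by rwa [dist_sub_right]⟩)
    (fun p hp q hq => by simpa only [dist_sub_right] using gr p hp q hq)
  refine ⟨fun p => φ p + ((⌊(g (0, 0)).1⌋ : ℝ), (⌊(g (0, 0)).2⌋ : ℝ)),
    fun p hp => (P_add_int _ _).2 (h1 p hp),
    fun p hp q hq => by simpa only [dist_add_right] using h2 p hp q hq, fun p hp => ?_⟩
  have := h3 p hp
  rwa [← dist_add_right _ _ ((⌊(g (0, 0)).1⌋ : ℝ), (⌊(g (0, 0)).2⌋ : ℝ)), sub_add_cancel] at this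

/-- The rescaled restriction to a square. -/
noncomputable def sc (n : ℕ) (i j : ℤ) (h : Pt → Pt) (p : Pt) : Pt := (3 : ℝ) ^ n • h (psi n i j p)

theorem dist3 (n : ℕ) (u v : Pt) : dist ((3 : ℝ) ^ n • u) ((3 : ℝ) ^ n • v) = 3 ^ n * dist u v := by
  rw [dist_smul₀, Real.norm_of_nonneg (by positivity)]

theorem Ro.sc {n : ℕ} {i j : ℤ} (hc : Cell n i j) (h : Ro K η f) :
    Ro K (3 ^ n * η) (sc n i j f) := fun p hp q hq => by
  have h3 : (0 : ℝ) < 3 ^ n := by positivity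
  obtain ⟨h1, h2⟩ := h _ (hc.psi_mem hp) _ (hc.psi_mem hq)
  rw [dist_psi] at h1 h2
  have e : dist p q = 3 ^ n * (dist p q / 3 ^ n) := by field_simp
  simp only [St.sc, dist3]
  rw [e]
  exact ⟨by linarith [mul_le_mul_of_nonneg_left h1 h3.le],
    by linarith [mul_le_mul_of_nonneg_left h2 h3.le]⟩

theorem stab (hK : 0 ≤ K) : ∃ B : ℝ, 0 ≤ B ∧ ∀ η f, 0 ≤ η → Nr S η f → Ro K η f →
    ∃ (φ : Pt → Pt) (K' : ℝ), (∀ p ∈ S, φ p ∈ S) ∧ Ro K' 0 φ ∧
      ∀ p ∈ S, dist (f p) (φ p) ≤ B * η := by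
  obtain ⟨A, hA⟩ := pow_unbounded_of_one_lt K (by norm_num : (1 : ℝ) < 3)
  obtain ⟨ε, hε, hεA⟩ : ∃ ε : ℝ, 0 < ε ∧ 3 ^ A * (4 * ε) < 1 :=
    ⟨1 / (5 * 3 ^ A), by positivity, by field_simp; norm_num⟩
  obtain ⟨δ₁, p1, H1⟩ := comp isClosed_S hK hε
  obtain ⟨δ₂, p2, H2⟩ := compP hK hε
  obtain ⟨δ, hδ, l1, l2, l3⟩ : ∃ δ : ℝ, 0 < δ ∧ δ ≤ δ₁ ∧ δ ≤ δ₂ ∧ δ ≤ 1 :=
    ⟨min δ₁ (min δ₂ 1), by positivity, min_le_left _ _,
      (min_le_right _ _).trans (min_le_left _ _), (min_le_right _ _).trans (min_le_right _ _)⟩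
  refine ⟨3 * ε / δ + (1 + 1 / δ), by positivity, fun η f hη fn fr => ?_⟩
  have b1 : 0 ≤ 3 * ε / δ * η := by positivity
  have b2 : 0 ≤ (1 + 1 / δ) * η := by positivity
  rcases le_total η δ with hl | hl
  · obtain ⟨φ, f1, f2, f3⟩ := H1 f (by
        obtain ⟨q, a, b⟩ := fn _ c00
        have := dist_triangle (f (0, 0)) q (0, 0)
        rw [← dist_zero_right]
        exact this.trans (by linarith [dist_S a c00]))
      (fn.mono (hl.trans l1)) (fr.mono (hl.trans l1))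
    have key : ∀ n i j, Cell n i j → 3 ^ n * η ≤ δ → ∀ p ∈ S,
        3 ^ n * dist (f (psi n i j p)) (φ (psi n i j p)) ≤ ε := by
      intro n i j hc
      induction hc with
      | root => intro _ p hp; simpa [psi_zero] using f3 p hp
      | @step n i j d e hc hd ih =>
        intro hn p hp
        have hc' := hc.step hd
        have h3 : (0 : ℝ) ≤ 3 ^ n * η := by positivity
        obtain ⟨ψ, g1, g2, g3⟩ := H2 (sc (n + 1) (3 * i + d) (3 * j + e) f)
          (fun q hq => by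
            obtain ⟨r, a, b⟩ := fn _ (hc'.psi_mem hq)
            refine ⟨(3 : ℝ) ^ (n + 1) • r, P_mul_pow (x := r.1) (y := r.2) a.1 _, ?_⟩
            rw [sc, dist3]
            exact (mul_le_mul_of_nonneg_left b (by positivity)).trans (hn.trans l2))
          ((fr.sc hc').mono (hn.trans l2))
        have e1 := disc hA.le g1 g2 (g := sc (n + 1) (3 * i + d) (3 * j + e) φ)
          (fun q hq => P_mul_pow (x := (φ _).1) (y := (φ _).2) (f1 _ (hc'.psi_mem hq)).1 _)
          (by simpa using f2.sc hc') (fun q hq => by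
            have a1 := ih (by rw [pow_succ] at hn; linarith) _ (S_sub hq hd)
            have a2 : psi n i j ((q.1 + d) / 3, (q.2 + e) / 3) =
                psi (n + 1) (3 * i + d) (3 * j + e) q := by
              simp only [psi]
              ext <;> push_cast <;> field_simp <;> ring
            have a3 := dist_triangle_left (ψ q) (sc (n + 1) (3 * i + d) (3 * j + e) φ q)
              (sc (n + 1) (3 * i + d) (3 * j + e) f q)
            have a4 := g3 q hq
            rw [a2] at a1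
            rw [sc, sc, dist3, pow_succ] at a3
            rw [sc, pow_succ] at a4
            refine lt_of_le_of_lt (mul_le_mul_of_nonneg_left ?_ (by positivity)) hεA
            rw [sc, pow_succ]
            linarith)
        have := g3 p hp
        rwa [e1 p hp, sc, sc, dist3] at this
    refine ⟨φ, K, f1, f2, fun p hp => ?_⟩
    have k2 : ∀ n : ℕ, 3 ^ n * η ≤ δ → 3 ^ n * dist (f p) (φ p) ≤ ε := fun n hn => by
      obtain ⟨i, j, hc, hq⟩ := exists_cell n hp
      have := key n i j hc hn _ hq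
      have h3 : (3 : ℝ) ^ n ≠ 0 := by positivity
      rwa [show psi n i j (3 ^ n * p.1 - i, 3 ^ n * p.2 - j) = p by simp [psi, h3]] at this
    by_contra hc
    have h1 : 3 * ε / δ * η < dist (f p) (φ p) := by rw [add_mul] at hc; linarith
    have k3 : ∀ n : ℕ, 3 ^ n * η ≤ δ := fun n => by
      induction n with
      | zero => simpa using hl
      | succ n ih =>
        have a1 := (mul_le_mul_of_nonneg_left h1.le (by positivity : (0 : ℝ) ≤ 3 ^ n)).trans
          (k2 n ih)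
        rw [show (3 : ℝ) ^ n * (3 * ε / δ * η) = 3 ^ (n + 1) * η / δ * ε by ring,
          mul_le_iff_le_one_left hε, div_le_one hδ] at a1
        exact a1
    obtain ⟨n, hn⟩ := pow_unbounded_of_one_lt (ε / dist (f p) (φ p)) (by norm_num : (1 : ℝ) < 3)
    rw [div_lt_iff₀ (b1.trans_lt h1)] at hn
    linarith [k2 n (k3 n)]
  · refine ⟨id, 1, fun p hp => hp, fun p _ q _ => by simp, fun p hp => ?_⟩
    obtain ⟨q, a, b⟩ := fn p hp
    have h1 := dist_triangle (f p) q p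
    have h2 : 1 ≤ 1 / δ * η := by rw [one_div_mul_eq_div, one_le_div hδ]; exact hl
    have h3 := dist_S a hp
    rw [id, add_mul, add_mul]
    linarith

end Pool.Agent.MP_d4b492_an.St
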